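import Pool.Agent.MP_ee8c61_ag.M3.Frame
import Pool.Agent.MP_ee8c61_ag.M3K.Spec
import Pool.Agent.MP_ee8c61_ag.M3F.Kit

/-!
Composite valuations, elements that lie in all valuation rings over a set, and generators of
linear systems along a divisor.
-/

namespace Pool.Agent.MP_ee8c61_ag.M3I44

open M3 M3E M3RESID Finset

noncomputable section

section Pl

variable {K k : Type} [Field K] [Algebra ℂ K] [Field k] [Algebra ℂ k] {P : Pl K k}

theorem un_of_ne {g : K} (hg : g ∈ P.o.F 0) (h : P.π g ≠ 0) : g ≠ 0 ∧ P.o.v g = 0 := by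
  have h1 : g ∉ P.o.F 1 := fun e => h ((P.ker g hg).2 e)
  rw [DV.mem_F, not_or] at h1
  have h2 := hg.resolve_left h1.1
  exact ⟨h1.1, by omega⟩

theorem ne_of_un {g : K} (h0 : g ≠ 0) (h : P.o.v g = 0) : P.π g ≠ 0 := fun e => by
  have := ((P.ker g (Or.inr h.ge)).1 e).resolve_left h0
  omega

theorem pl_div {g h : K} (hg : g ∈ P.o.F 0) (hh : h ∈ P.o.F 0) (h0 : P.π h ≠ 0) :
    g / h ∈ P.o.F 0 ∧ P.π (g / h) = P.π g / P.π h := by
  obtain ⟨h1, h2⟩ := un_of_ne hh h0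
  have h3 : h⁻¹ ∈ P.o.F 0 := Or.inr (by rw [P.o.inv]; omega)
  have h4 : g / h ∈ P.o.F 0 := by
    have := P.o.F_mul hg h3
    rwa [add_zero, ← div_eq_mul_inv] at this
  refine ⟨h4, eq_div_of_mul_eq h0 ?_⟩
  rw [← P.mul _ h4 _ hh, div_mul_cancel₀ _ h1]

theorem pl_aeval {σ : Type} {τ : σ → K} (h : ∀ i, τ i ∈ P.o.F 0) (Φ : MvPolynomial σ ℂ) :
    MvPolynomial.aeval τ Φ ∈ P.o.F 0 ∧
      P.π (MvPolynomial.aeval τ Φ) = MvPolynomial.aeval (fun i => P.π (τ i)) Φ := by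
  induction Φ using MvPolynomial.induction_on with
  | C a => simpa using P.cst a
  | add p q hp hq =>
    rw [map_add, map_add, P.add _ hp.1 _ hq.1, hp.2, hq.2]
    exact ⟨add_mem hp.1 hq.1, rfl⟩
  | mul_X p i hp =>
    rw [map_mul, map_mul, MvPolynomial.aeval_X, MvPolynomial.aeval_X, P.mul _ hp.1 _ (h i), hp.2]
    exact ⟨by simpa using P.o.F_mul hp.1 (h i), rfl⟩

variable (P) in
/-- The composite of the place `P` with a valuation ring of its residue field. -/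
def liftV (W : ValuationSubring k) : ValuationSubring K where
  carrier := {g | g ∈ P.o.F 0 ∧ P.π g ∈ W}
  mul_mem' := fun {a b} ha hb => ⟨by simpa using P.o.F_mul ha.1 hb.1, by
    rw [P.mul a ha.1 b hb.1]
    exact mul_mem ha.2 hb.2⟩
  one_mem' := ⟨Or.inr P.o.one.ge, by rw [pl_one]; exact one_mem _⟩
  add_mem' := fun {a b} ha hb => ⟨add_mem ha.1 hb.1, by
    rw [P.add a ha.1 b hb.1]
    exact add_mem ha.2 hb.2⟩
  zero_mem' := ⟨zero_mem _, by rw [pl_zero]; exact zero_mem _⟩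
  neg_mem' := fun {a} ha => ⟨neg_mem ha.1, by rw [pl_neg P ha.1]; exact neg_mem ha.2⟩
  mem_or_inv_mem' := fun g => by
    have one : (1 : K) ∈ P.o.F 0 := Or.inr P.o.one.ge
    rcases P.o.O.mem_or_inv_mem g with h | h
    · by_cases h0 : P.π g = 0
      · exact Or.inl ⟨h, h0 ▸ zero_mem _⟩
      · obtain ⟨h1, h2⟩ := pl_div one h h0
        rw [pl_one, one_div, one_div] at h2
        rw [one_div] at h1
        exact (W.mem_or_inv_mem (P.π g)).imp (fun e => ⟨h, e⟩) fun e => ⟨h1, h2 ▸ e⟩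
    · by_cases h0 : P.π g⁻¹ = 0
      · exact Or.inr ⟨h, h0 ▸ zero_mem _⟩
      · obtain ⟨h1, h2⟩ := pl_div one h h0
        rw [pl_one, one_div, one_div, inv_inv] at h2
        rw [one_div, inv_inv] at h1
        exact (W.mem_or_inv_mem (P.π g⁻¹)).symm.imp (fun e => ⟨h1, h2 ▸ e⟩) fun e => ⟨h, e⟩

theorem mem_liftV {W : ValuationSubring k} {g : K} :
    g ∈ liftV P W ↔ g ∈ P.o.F 0 ∧ P.π g ∈ W := Iff.rfl

theorem liftV_le (W : ValuationSubring k) : liftV P W ≤ P.o.O := fun _ h => h.1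

theorem lift_eq (Γ : DV k) : lift P Γ = liftV P Γ.O := rfl

end Pl

section Cl

variable {L : Type} [Field L] [Algebra ℂ L]

/-- `u` lies in every valuation ring that contains `S`. -/
def Cl (S : Set L) (u : L) : Prop :=
  ∀ W : ValuationSubring L, (∀ c : ℂ, algebraMap ℂ L c ∈ W) → (∀ g ∈ S, g ∈ W) → u ∈ W

theorem Cl.int {S : Set L} {u : L} (h : Cl S u) (B : Subalgebra ℂ L) (hB : S ⊆ B) :
    IsIntegral B u := by
  have e := iInf_valuationSubring_superset (s := (B.toSubring : Set L))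
  rw [Subring.closure_eq] at e
  have : u ∈ (integralClosure B.toSubring L).toSubring :=
    e ▸ Subring.mem_iInf.2 fun V => h V.1 (fun c => V.2 (B.algebraMap_mem c)) fun g hg =>
      V.2 (hB hg)
  exact this

theorem Cl.kill {S : Set L} {u : L} (h : Cl S u) (F : IntermediateField ℂ L) (hF : S ⊆ F)
    {X : VF L} (hX : ∀ g ∈ F, X g = 0) : X u = 0 :=
  M3F.kill_alg F X hX (h.int F.toSubalgebra hF).isAlgebraic

/-- The functions that are constant on `Γ`. -/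
def Cn (Γ : DV L) (g : L) : Prop := g ∈ Γ.F 0 ∧ ∃ c : ℂ, g - algebraMap ℂ L c ∈ Γ.F 1

theorem cn_of {Γ : DV L} {g : L} (hg : g ∈ Γ.F 0) (h : ¬NC Γ g) : Cn Γ g :=
  ⟨hg, by_contra fun e => h ⟨hg, not_exists.1 e⟩⟩

theorem Cn.not {Γ : DV L} {g : L} (h : Cn Γ g) : ¬NC Γ g := fun e => not_exists.2 e.2 h.2

theorem cn_iff {Γ : DV L} {g : L} :
    Cn Γ g ↔ g ∈ Γ.F 0 ∧ ∃ c : ℂ, Γ.pl.π g = algebraMap ℂ _ c := by
  refine and_congr_right fun hg => exists_congr fun c => ?_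
  have h1 := (Γ.pl.cst c).1
  have h2 := Γ.pl.add g hg _ (neg_mem h1)
  rw [pl_neg _ h1, (Γ.pl.cst c).2, ← sub_eq_add_neg, ← sub_eq_add_neg] at h2
  rw [← sub_eq_zero, ← h2]
  exact (Γ.pl.ker _ (sub_mem hg h1)).symm

theorem Cn.div {Γ : DV L} {g h : L} (hg : Cn Γ g) (hh : Cn Γ h) (h0 : h ≠ 0) (h1 : Γ.v h = 0) :
    Cn Γ (g / h) := by
  obtain ⟨g1, a, g2⟩ := cn_iff.1 hg
  obtain ⟨k1, b, k2⟩ := cn_iff.1 hh
  obtain ⟨e1, e2⟩ := pl_div (P := Γ.pl) g1 k1 (ne_of_un (P := Γ.pl) h0 h1)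
  exact cn_iff.2 ⟨e1, a / b, by rw [e2, g2, k2, map_div₀]⟩

theorem Cl.cn {S : Set L} {u : L} (h : Cl S u) {Γ : DV L} (hS : ∀ g ∈ S, Cn Γ g) : Cn Γ u := by
  have h1 : ∀ W : ValuationSubring Γ.kf, (∀ c : ℂ, algebraMap ℂ _ c ∈ W) → u ∈ liftV Γ.pl W :=
    fun W hW => h _ (fun c => ⟨(Γ.pl.cst c).1, (Γ.pl.cst c).2 ▸ hW c⟩) fun g hg => by
      obtain ⟨g1, c, g2⟩ := cn_iff.1 (hS g hg)
      exact ⟨g1, g2 ▸ hW c⟩
  have h2 : Cl ∅ (Γ.pl.π u) := fun W hW _ => (h1 W hW).2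
  have h3 : IsIntegral ℂ (Γ.pl.π u) := by
    have h4 := h2.int ⊥ (Set.empty_subset _)
    have : Algebra.IsIntegral ℂ (⊥ : Subalgebra ℂ Γ.kf) :=
      Algebra.isIntegral_of_surjective (Algebra.surjective_algebraMap_iff.2 (by
        ext x
        obtain ⟨c, hc⟩ := Algebra.mem_bot.1 x.2
        exact iff_of_true trivial ⟨c, Subtype.ext hc⟩))
    exact isIntegral_trans _ h4
  obtain ⟨c, hc⟩ := minpoly.mem_range_of_degree_eq_one ℂ _
    (IsAlgClosed.degree_eq_one_of_irreducible ℂ (minpoly.irreducible h3))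
  exact cn_iff.2 ⟨(h1 ⊤ fun _ => trivial).1, c, hc.symm⟩

/-- A field that kills `a` kills every `b` that depends on `a`. -/
theorem kill_dep {a b : L} {X' X : VF L} (h' : X' a ≠ 0) (h : X a = 0)
    {Φ : MvPolynomial (Fin 2) ℂ} (h0 : Φ ≠ 0) (h1 : MvPolynomial.aeval ![a, b] Φ = 0) :
    X b = 0 := by
  have h2 : AlgebraicIndependent ℂ fun _ : Unit => a := by
    rw [algebraicIndependent_unique_type_iff]
    intro h
    refine h' (M3F.kill_alg ⊥ X' (fun x hx => ?_) (h.tower_top _))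
    obtain ⟨c, rfl⟩ := IntermediateField.mem_bot.1 hx
    simp
  have h3 : IsAlgebraic (Algebra.adjoin ℂ (Set.range fun _ : Unit => a)) b := by
    by_contra h3
    have h4 := (AlgebraicIndependent.option_iff.2 ⟨h2, h3⟩).comp ![some (), none] (by decide)
    refine h0 (algebraicIndependent_iff.1 h4 Φ ?_)
    rw [← h1]
    congr 2
    funext i
    fin_cases i <;> rfl
  let F : IntermediateField ℂ L := M3F.Kz a
  refine M3F.kill_alg F X (fun x hx => hx X h) ?_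
  refine IsAlgebraic.tower_top_of_subalgebra_le (B := F.toSubalgebra) ?_ h3
  refine Algebra.adjoin_le ?_
  rintro _ ⟨_, rfl⟩
  exact M3F.self_mem_Kz a

end Cl

section Mod

variable {N : ℕ} {f : Po N} {W : Mod N} {o : W.J} {k : Type} [Field k] [Algebra ℂ k]
  {P : Pl (KK N) k} {c : W.J → ℤ} {T : Finset (KK N)}

theorem ov_liftV (hP : Ov P.o.O) {V : ValuationSubring k} (h1 : ∀ a : ℂ, algebraMap ℂ k a ∈ V)
    (h2 : ∀ l, P.π (xx N l) ∈ V) : Ov (liftV P V) := fun p => by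
  induction p using MvPolynomial.induction_on with
  | C a =>
    rw [← MvPolynomial.algebraMap_eq, AlgHom.commutes]
    exact ⟨(P.cst a).1, (P.cst a).2 ▸ h1 a⟩
  | add p q hp hq => rw [map_add]; exact add_mem hp hq
  | mul_X p i hp => rw [map_mul]; exact mul_mem hp ⟨hP _, h2 i⟩

theorem sec_mem (B : Bas f W) (hP : P.o = W.v o) (hc : c o = 0) {g : KK N} (hg : g ∈ W.H c) :
    g ∈ P.o.F 0 := by
  have := B.R_F o c g (B.H_R o c hg)
  rwa [hc, neg_zero, ← hP] at this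

theorem gen_ne (hW : W.OK f) (B : Bas f W) (hP : P.o = W.v o) (hc : c o = 0) {V : Vl N}
    (hV : Ov V) (hle : V ≤ P.o.O) {g : KK N} (hg : W.Gen V c g) : P.π g ≠ 0 := by
  obtain ⟨b, hb⟩ := hW.cov V hV
  rw [hP] at hle
  have h1 := (B.gen_v o c g).1
    ((B.gen_iff b _ c g fun x hx => hle (hb x hx)).2 ((hg b hb).mono hle))
  exact ne_of_un h1.1 (by rw [hP, h1.2, hc, neg_zero])

theorem gen_of_div (hW : W.OK f) (B : Bas f W) {V : Vl N} (hV : Ov V) {g h : KK N}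
    (hg : W.Gen V c g) (hh : W.Oc V c h) (h0 : h ≠ 0) (h1 : g / h ∈ V) : W.Gen V c h := by
  obtain ⟨b, hb⟩ := hW.cov V hV
  have h2 := hg b hb
  have g0 : g ≠ 0 := left_ne_zero_of_mul h2.1
  have h3 : Un V (h / g) :=
    ⟨div_ne_zero h0 g0, (B.oc_div V c h g hV hg).1 hh, by rwa [inv_div]⟩
  refine (B.gen_iff b V c h hb).2 ?_
  have := h3.mul h2
  rwa [← mul_assoc, div_mul_cancel₀ _ g0] at this

/-- A member of a generating family whose ratios are regular generates. -/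
theorem gen_liftV (hW : W.OK f) (B : Bas f W) (hP : P.o = W.v o) (hc : c o = 0)
    (hT : W.Gens c T) {s : KK N} (hs : s ∈ T) (h0 : P.π s ≠ 0) {V : ValuationSubring k}
    (hV : Ov (liftV P V)) (h : ∀ s' ∈ T, P.π s' / P.π s ∈ V) : W.Gen (liftV P V) c s := by
  obtain ⟨g, g1, g2⟩ := hT.2 _ hV
  have s1 := sec_mem B hP hc (hT.1 s hs)
  obtain ⟨e1, e2⟩ := pl_div (sec_mem B hP hc (hT.1 g g1)) s1 h0
  exact gen_of_div hW B hV g2 (hT.1 s hs _ hV) (un_of_ne s1 h0).1 ⟨e1, e2 ▸ h g g1⟩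

/-- Functions that are regular where `s` generates. -/
theorem cl_of (hW : W.OK f) (B : Bas f W) (hP : P.o = W.v o) (hc : c o = 0)
    (hT : W.Gens c T) {s : KK N} (hs : s ∈ T) (h0 : P.π s ≠ 0) {u : KK N}
    (hu : ∀ V, Ov V → W.Gen V c s → u ∈ V) :
    Cl (Set.range (fun l => P.π (xx N l)) ∪ (fun s' => P.π s' / P.π s) '' T) (P.π u) := by
  intro V h1 h2
  have hV : Ov (liftV P V) :=
    ov_liftV (hP ▸ B.ov_v o) h1 fun l => h2 _ (Or.inl ⟨l, rfl⟩)
  exact (hu _ hV (gen_liftV hW B hP hc hT hs h0 hV fun s' hs' => h2 _ (Or.inr ⟨s', hs', rfl⟩))).2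

/-- A generator gives a generator of the restricted family. -/
theorem ratio_mem (hW : W.OK f) (B : Bas f W) (hP : P.o = W.v o) (hc : c o = 0) {s s' : KK N}
    (hs : s ∈ W.H c) (hs' : s' ∈ W.H c) {V : ValuationSubring k} (hV : Ov (liftV P V))
    (h : W.Gen (liftV P V) c s) : P.π s ≠ 0 ∧ P.π s' / P.π s ∈ V := by
  have h0 := gen_ne hW B hP hc hV (liftV_le V) h
  exact ⟨h0, (pl_div (sec_mem B hP hc hs') (sec_mem B hP hc hs) h0).2 ▸
    ((B.oc_div _ c s' s hV h).1 (hs' _ hV)).2⟩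

end Mod

end

end Pool.Agent.MP_ee8c61_ag.M3I44
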